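import Pool.Agent.N794.CG.Ang

/-!
# The discrepancy of the Frobenius angles in one-parameter families of elliptic curves, for almost all parameters in automatic sets

From Mathlib: `DFA ℕ σ`: finite automata (for `[Fintype σ]`) which read words of natural numbers; `Nat.digits b v`: the
digits of `v` in base `b`, the least significant digit first.

Method: the random member of an automatic set of more than polylogarithmic size is dominated, up to a power of the
logarithm, by a random integer whose characteristic function decays (starting library, `Pool.Agent.H491R4.AF`); the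
passage from there to sums over primes of functions of residues, for almost all members, is from the starting library
(`Pool.Agent.R459.Eq`).
-/

set_option autoImplicit false

namespace Pool.Agent.Results.MP_29be01_nt.AutomaticFamilies

open Finset Filter Pool.Agent.N794.CG

open Classical in
/-- The integers `0 ≤ v < N` whose digits in base `b` (the least significant digit first) are accepted by the automaton
`M`. -/
noncomputable def members {σ : Type} (b : ℕ) (M : DFA ℕ σ) (N : ℕ) : Finset ℕ :=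
  (range N).filter (fun v => Nat.digits b v ∈ M.accepts)

open Classical in
/-- Almost all the integers `n = c + κ v` with `v ∈ members b M N`, up to a proportion of at most `τ`, have the property `P`. -/
def Almost {σ : Type} (b : ℕ) (M : DFA ℕ σ) (N : ℕ) (κ c : ℤ) (τ : ℝ) (P : ℤ → Prop) : Prop :=
  (((members b M N).filter (fun v : ℕ => ¬ P (c + κ * v))).card : ℝ) ≤ τ * (members b M N).card

lemma almost_of {σ : Type} {b : ℕ} {M : DFA ℕ σ} {N : ℕ} {κ c : ℤ} {τ : ℝ} {P Q : ℤ → Prop}
    (h : Mostly (mem b M N) (fun _ => 1 / ((mem b M N).card : ℝ)) (fun v => c + κ * (v : ℕ)) τ P) (hPQ : ∀ n, P n → Q n) :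
    Almost b M N κ c τ Q := by
  classical
  have h1 := h ((mem b M N).filter (fun v : ℕ => ¬ Q (c + κ * v))) (filter_subset _ _)
    (fun i hi hP => (mem_filter.1 hi).2 (hPQ _ hP))
  have e : members b M N = mem b M N := rfl
  unfold Almost
  rw [e]
  rw [sum_const, nsmul_eq_mul, mul_one_div] at h1
  rcases Nat.eq_zero_or_pos (mem b M N).card with h0 | h0
  · have h2 : (mem b M N).filter (fun v : ℕ => ¬ Q (c + κ * v)) = ∅ := by
      rw [card_eq_zero.1 h0, filter_empty]
    rw [h2, h0]
    simp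
  · have h5 : (0 : ℝ) < (mem b M N).card := by exact_mod_cast h0
    rw [div_le_iff₀ h5] at h1
    exact h1

/-- The number of the solutions `(x, y)` of `y² = x³ + A x + B` modulo `p`. -/
def points (p : ℕ) (A B : ℤ) : ℕ :=
  ((range p ×ˢ range p).filter
    (fun xy : ℕ × ℕ => (p : ℤ) ∣ (xy.2 : ℤ) ^ 2 - ((xy.1 : ℤ) ^ 3 + A * xy.1 + B))).card

/-- The Frobenius angle in `[0, 1]` of the curve `y² = x³ + A x + B` at the prime `p`: it is `θ` with
`2 p ^ (1 / 2) cos (π θ) = p + 1 - #E(F_p) = p - points p A B`, and `1 / 2` if `p ∣ 2 (4 A³ + 27 B²)`. -/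
noncomputable def angle (A B : ℤ) (p : ℕ) : ℝ :=
  if (p : ℤ) ∣ 2 * (4 * A ^ 3 + 27 * B ^ 2) then 1 / 2
  else Real.arccos (((p : ℝ) - points p A B) / (2 * Real.sqrt p)) / Real.pi

open Classical in
/-- The number of the primes `p ≤ x` in `S` for which the angle of the curve `y² = x³ + A x + B` is in `[y, z)`. -/
noncomputable def angleCount (S : Set ℕ) (y z : ℝ) (x : ℕ) (A B : ℤ) : ℕ :=
  ((range (x + 1)).filter (fun p => p.Prime ∧ p ∈ S ∧ y ≤ angle A B p ∧ angle A B p < z)).card

open Classical in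
/-- The sum over the primes `p ≤ x` in `S` of the proportion of the residues `t` modulo `p` for which the angle of
`y² = x³ + f(t) x + g(t)` at `p` is in `[y, z)`. -/
noncomputable def angleModel (f g : Polynomial ℤ) (S : Set ℕ) (y z : ℝ) (x : ℕ) : ℝ :=
  ∑ p ∈ (range (x + 1)).filter (fun p => p.Prime ∧ p ∈ S),
    (((range p).filter (fun t : ℕ => y ≤ angle (f.eval (t : ℤ)) (g.eval (t : ℤ)) p ∧
      angle (f.eval (t : ℤ)) (g.eval (t : ℤ)) p < z)).card : ℝ) / p

theorem points_congr (p : ℕ) {A A' B B' : ℤ} (hA : (p : ℤ) ∣ A - A') (hB : (p : ℤ) ∣ B - B') :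
    points p A B = points p A' B' := by
  unfold points
  congr 1
  apply filter_congr
  intro xy _
  have h : (p : ℤ) ∣ ((xy.2 : ℤ) ^ 2 - ((xy.1 : ℤ) ^ 3 + A * xy.1 + B)) -
      ((xy.2 : ℤ) ^ 2 - ((xy.1 : ℤ) ^ 3 + A' * xy.1 + B')) := by
    have e : ((xy.2 : ℤ) ^ 2 - ((xy.1 : ℤ) ^ 3 + A * xy.1 + B)) -
      ((xy.2 : ℤ) ^ 2 - ((xy.1 : ℤ) ^ 3 + A' * xy.1 + B')) = -((A - A') * xy.1 + (B - B')) := by ring
    rw [e]
    exact (dvd_add (hA.mul_right _) hB).neg_right
  exact (dvd_iff_dvd_of_dvd_sub h)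

theorem angle_congr (p : ℕ) {A A' B B' : ℤ} (hA : (p : ℤ) ∣ A - A') (hB : (p : ℤ) ∣ B - B') :
    angle A B p = angle A' B' p := by
  unfold angle
  rw [points_congr p hA hB]
  have h : (p : ℤ) ∣ 2 * (4 * A ^ 3 + 27 * B ^ 2) - 2 * (4 * A' ^ 3 + 27 * B' ^ 2) := by
    have e : 2 * (4 * A ^ 3 + 27 * B ^ 2) - 2 * (4 * A' ^ 3 + 27 * B' ^ 2) =
      (A - A') * (8 * (A ^ 2 + A * A' + A' ^ 2)) + (B - B') * (54 * (B + B')) := by ring
    rw [e]
    exact dvd_add (hA.mul_right _) (hB.mul_right _)
  have h2 := dvd_iff_dvd_of_dvd_sub h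
  by_cases h3 : (p : ℤ) ∣ 2 * (4 * A ^ 3 + 27 * B ^ 2)
  · rw [if_pos h3, if_pos (h2.mp h3)]
  · rw [if_neg h3, if_neg (fun h4 => h3 (h2.mpr h4))]

lemma angle_le (A B : ℤ) (p : ℕ) : angle A B p ≤ 1 := by
  unfold angle
  split_ifs
  · norm_num
  · rw [div_le_one Real.pi_pos]
    exact Real.arccos_le_pi _

/-- Let `A` be a finite automaton which accepts the digits, in base `b ≥ 2`, of more than
polylogarithmically many integers: for every `k` there are infinitely many `N` such that more than `(log N) ^ k` integers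
`v < N` are accepted (this excludes only sparse sets; the number of the accepted `v < N` may be `N ^ c` with arbitrarily
small `c > 0`). Let `0 < δ ≤ 1 / 2`. There are `W` and `e` such that for `κ ≠ 0` and all sufficiently large `X` the following holds for all `N` and all `c`.
The `W` does not depend on the polynomials and the sets in the following.

For ALL polynomials `f, g ∈ ℤ[T]` and ALL sets `S` of primes, almost all the integers `n = c + κ v` with `v < N` accepted by
`A`, up to a proportion of at most `(log N) ^ e X ^ (- δ)`, have for ALL `x ≥ X` with `x ^ W ≤ N` and ALL intervals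
`[y, z)`: the number of the primes `p ≤ x` in `S` for which the Frobenius angle of the curve `y² = x³ + f(n) x + g(n)` is in
`[y, z)` differs from the sum over these primes of the proportion of the residues `t` modulo `p` for which the angle of
`y² = x³ + f(t) x + g(t)` is in `[y, z)` by at most `2 x ^ (1 / 2 + δ)`. -/
theorem result {σ : Type} [Fintype σ] (b : ℕ) (hb : 2 ≤ b) (A : DFA ℕ σ)
    (hS : ∀ k : ℕ, ∃ᶠ N : ℕ in atTop, Real.log N ^ k < ((members b A N).card : ℝ))
    (δ : ℝ) (hδ : 0 < δ) (hδ1 : δ ≤ 1 / 2) : ∃ W e : ℕ, 1 ≤ W ∧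
    ∀ κ : ℤ, κ ≠ 0 → ∃ X₀ : ℕ, ∀ X : ℕ, X₀ ≤ X → ∀ (N : ℕ) (c : ℤ),
    ∀ (f g : Polynomial ℤ) (S : Set ℕ), Almost b A N κ c (Real.log N ^ e * (X : ℝ) ^ (-δ)) (fun n => ∀ x : ℕ, X ≤ x → x ^ W ≤ N →
      ∀ y z : ℝ, |(angleCount S y z x (f.eval n) (g.eval n) : ℝ) - angleModel f g S y z x| ≤ 2 * (x : ℝ) ^ (1 / 2 + δ)) := by
  obtain ⟨W, e, hW, H⟩ := eng_aut (fun X => by positivity) (eng_ang δ hδ hδ1) b hb A hS
  refine ⟨W, e, hW, fun κ hκ => ?_⟩
  obtain ⟨X₀, J⟩ := H κ hκ
  refine ⟨X₀, fun X hX N c f g S => ?_⟩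
  exact almost_of (ang_between (fun s => J X (by omega) N c s) (fun p n => angle (f.eval n) (g.eval n) p)
    (fun p _ m n hmn => angle_congr p (hmn.trans (f.sub_dvd_eval_sub m n)) (hmn.trans (g.sub_dvd_eval_sub m n)))
    (fun p n => angle_le _ _ p) S) fun _ h => h

end Pool.Agent.Results.MP_29be01_nt.AutomaticFamilies
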