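import Pool.Agent.N193.PS.Pe3

/-!
# The Frobenius angles at `s` consecutive primes: all boxes, with square-root error against the finite-field model, for
almost all members of one-parameter families of elliptic curves at the values of functions of non-integral index

From Mathlib: `ContDiffAt ℝ ⊤`: infinitely differentiable at a point; `iteratedDeriv m f`: the derivative of order `m`;
`⌊y⌋₊`: the integer part of `y`, and `0` for `y < 0`; `Nat.nth Nat.Prime k`: the prime
with the index `k`, starting with `k = 0`; `Set.OrdConnected`: intervals.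

Method: the characteristic function of the integer part of `f n` is small at all frequencies which are not close to
integers (van der Corput differencing and the inequality of Kusmin and Landau on dyadic blocks for all orders of
differencing, a discrete Fejer kernel for the passage to integer parts), and the values are not concentrated on short
intervals. So the values are
uniformly distributed in residue classes with a power saving, for all moduli up to a power of the number of the values.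
The high moments and the passage to all boxes follow the starting files (`Pool.Agent.TH869.SQ`), where the arguments are
all the integers.
-/

set_option autoImplicit false

namespace Pool.Agent.Results.MP_29be01_nt.NonIntegralOrderFamilies

open Finset Filter Polynomial

/-- `f` is smoothly varying of index `c`: it is infinitely differentiable and positive for large arguments, and
`t ^ m f⁽ᵐ⁾(t) / f(t) → c (c - 1) ... (c - m + 1)` for every `m`. -/
def SmoothlyVarying (c : ℝ) (f : ℝ → ℝ) : Prop :=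
  (∃ t₀ : ℝ, ∀ t > t₀, ContDiffAt ℝ ((⊤ : ℕ∞) : WithTop ℕ∞) f t ∧ 0 < f t) ∧
  ∀ m : ℕ, Tendsto (fun t => t ^ m * iteratedDeriv m f t / f t) atTop (nhds (∏ i ∈ range m, (c - i)))

/-- The number of the solutions `(x, y)` of `y² = x³ + A x + B` modulo `p`. -/
def points (p : ℕ) (A B : ℤ) : ℕ :=
  ((range p ×ˢ range p).filter
    (fun xy : ℕ × ℕ => (p : ℤ) ∣ (xy.2 : ℤ) ^ 2 - ((xy.1 : ℤ) ^ 3 + A * xy.1 + B))).card

/-- The Frobenius angle in `[0, 1]` of the curve `y² = x³ + A x + B` at the prime `p`: it is `θ` with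
`2 p ^ (1 / 2) cos (π θ) = p + 1 - #E(F_p) = p - points p A B`, and `1 / 2` if `p ∣ 2 (4 A³ + 27 B²)`. -/
noncomputable def angle (A B : ℤ) (p : ℕ) : ℝ :=
  if (p : ℤ) ∣ 2 * (4 * A ^ 3 + 27 * B ^ 2) then 1 / 2
  else Real.arccos (((p : ℝ) - points p A B) / (2 * Real.sqrt p)) / Real.pi

open Classical in
/-- The number of the `k < K` such that the angles of the curve `y² = x³ + A x + B` at the `s` consecutive primes with the
numbers `k, ..., k + s - 1` (the primes are numbered from `0`) are in `I 0, ..., I (s - 1)`. -/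
noncomputable def boxCount {s : ℕ} (A B : ℤ) (I : Fin s → Set ℝ) (K : ℕ) : ℕ :=
  ((range K).filter (fun k => ∀ i : Fin s, angle A B (Nat.nth Nat.Prime (k + i)) ∈ I i)).card

open Classical in
/-- The proportion of the residues `t` modulo `p` for which the angle of `y² = x³ + a(t) x + b(t)` at `p` is in `S`. -/
noncomputable def proportion (a b : ℤ[X]) (p : ℕ) (S : Set ℝ) : ℝ :=
  ((range p).filter (fun t : ℕ => angle (a.eval (t : ℤ)) (b.eval (t : ℤ)) p ∈ S)).card / p

/-- The expected number: the sum over `k < K` of the product of the proportions at the `s` primes. -/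
noncomputable def boxModel {s : ℕ} (a b : ℤ[X]) (I : Fin s → Set ℝ) (K : ℕ) : ℝ :=
  ∑ k ∈ range K, ∏ i : Fin s, proportion a b (Nat.nth Nat.Prime (k + i)) (I i)

theorem points_congr (p : ℕ) {A A' B B' : ℤ} (hA : (p : ℤ) ∣ A - A') (hB : (p : ℤ) ∣ B - B') :
    points p A B = points p A' B' := by
  unfold points
  congr 1
  apply filter_congr
  intro xy _
  have h : (p : ℤ) ∣ ((xy.2 : ℤ) ^ 2 - ((xy.1 : ℤ) ^ 3 + A * xy.1 + B)) -
      ((xy.2 : ℤ) ^ 2 - ((xy.1 : ℤ) ^ 3 + A' * xy.1 + B')) := by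
    have e : ((xy.2 : ℤ) ^ 2 - ((xy.1 : ℤ) ^ 3 + A * xy.1 + B)) -
      ((xy.2 : ℤ) ^ 2 - ((xy.1 : ℤ) ^ 3 + A' * xy.1 + B')) = -((A - A') * xy.1 + (B - B')) := by ring
    rw [e]
    exact (dvd_add (hA.mul_right _) hB).neg_right
  exact (dvd_iff_dvd_of_dvd_sub h)

theorem angle_congr (p : ℕ) {A A' B B' : ℤ} (hA : (p : ℤ) ∣ A - A') (hB : (p : ℤ) ∣ B - B') :
    angle A B p = angle A' B' p := by
  unfold angle
  rw [points_congr p hA hB]
  have h : (p : ℤ) ∣ 2 * (4 * A ^ 3 + 27 * B ^ 2) - 2 * (4 * A' ^ 3 + 27 * B' ^ 2) := by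
    have e : 2 * (4 * A ^ 3 + 27 * B ^ 2) - 2 * (4 * A' ^ 3 + 27 * B' ^ 2) =
      (A - A') * (8 * (A ^ 2 + A * A' + A' ^ 2)) + (B - B') * (54 * (B + B')) := by ring
    rw [e]
    exact dvd_add (hA.mul_right _) (hB.mul_right _)
  have h2 := dvd_iff_dvd_of_dvd_sub h
  by_cases h3 : (p : ℤ) ∣ 2 * (4 * A ^ 3 + 27 * B ^ 2)
  · rw [if_pos h3, if_pos (h2.mp h3)]
  · rw [if_neg h3, if_neg (fun h4 => h3 (h2.mpr h4))]


open Classical in
/-- **(1)** Let `f` be smoothly varying of an index `c > 0` which is not an integer, and let `s ≥ 1` and `δ > 0`. There are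
`κ > 0` and `C` such that for all polynomials `a, b ∈ ℤ[T]` and all `N ≥ 1`, all the integers `1 ≤ n ≤ N` with at most
`C N ^ (1 - κ)` exceptions have the following property, with `t = ⌊f n⌋`: for every `K ≤ N ^ κ` and every product of `s`
intervals, the number of the `k < K` such that the Frobenius angles of the elliptic curve `y² = x³ + a(t) x + b(t)` at the
`s` consecutive primes with the numbers `k, ..., k + s - 1` are in the intervals differs from the expected number (the sum
over `k < K` of the product of the proportions for the residues `t` modulo these primes) by at most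
`C K ^ (1 / 2 + δ) (1 + log N) ^ (1 / 2)`.

**(2)** Part (1) applies to all the functions `f t = ∑ a z t ^ z.1 (log t) ^ z.2` (finite sums) with a leading term `z₀`
whose coefficient is positive and whose exponent `c = z₀.1` is positive and not an integer; for example to `n ^ c`. -/
theorem result :
    (∀ (c : ℝ) (f : ℝ → ℝ), 0 < c → (∀ m : ℕ, c ≠ m) → SmoothlyVarying c f →
      ∀ s : ℕ, 1 ≤ s → ∀ δ : ℝ, 0 < δ → ∃ κ C : ℝ, 0 < κ ∧ 0 < C ∧ ∀ (a b : ℤ[X]) (N : ℕ), 1 ≤ N →
        (((Icc 1 N).filter (fun n : ℕ => ¬ ∀ K : ℕ, (K : ℝ) ≤ (N : ℝ) ^ κ →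
          ∀ I : Fin s → Set ℝ, (∀ i, (I i).OrdConnected) →
            |(boxCount (a.eval (⌊f n⌋₊ : ℤ)) (b.eval (⌊f n⌋₊ : ℤ)) I K : ℝ) - boxModel a b I K| ≤
              C * ((K : ℝ) ^ (1 / 2 + δ) * √(1 + Real.log N)))).card : ℝ) ≤ C * (N : ℝ) ^ (1 - κ)) ∧
    (∀ (F : Finset (ℝ × ℝ)) (a : ℝ × ℝ → ℝ) (z₀ : ℝ × ℝ), z₀ ∈ F → 0 < a z₀ →
      (∀ z ∈ F, z ≠ z₀ → z.1 < z₀.1 ∨ z.1 = z₀.1 ∧ z.2 < z₀.2) →
      SmoothlyVarying z₀.1 (fun t => ∑ z ∈ F, a z * t ^ z.1 * Real.log t ^ z.2)) := by
  refine ⟨fun c f hc hn hf s hs δ hδ => ?_, fun F a z₀ h1 h2 h3 => Pool.Agent.N193.PS.gp_sv F a z₀ h1 h2 h3⟩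
  obtain ⟨κ, C, h1, _, h3, H⟩ := Pool.Agent.N193.PS.sv_consec c f hc hn hf s hs δ hδ
  refine ⟨κ, C, h1, by linarith, fun a b N hN => ?_⟩
  have hE := H (fun p n => angle (a.eval (n : ℤ)) (b.eval (n : ℤ)) p) (by
    intro p n
    have e : ((n + p : ℕ) : ℤ) - (n : ℤ) = p := by push_cast; ring
    have hd : ∀ f : ℤ[X], (p : ℤ) ∣ f.eval ((n + p : ℕ) : ℤ) - f.eval (n : ℤ) := by
      intro f
      have := f.sub_dvd_eval_sub ((n + p : ℕ) : ℤ) (n : ℤ)
      rwa [e] at this
    exact angle_congr p (hd a) (hd b)) N hN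
  refine le_trans (Nat.cast_le.2 (card_le_card fun n hn => ?_)) hE
  rw [mem_filter] at hn ⊢
  refine ⟨hn.1, fun hcon => hn.2 ?_⟩
  intro K hK I hI
  have h := hcon K hK I hI
  rw [sum_sub_distrib] at h
  have e1 : (boxCount (a.eval (⌊f n⌋₊ : ℤ)) (b.eval (⌊f n⌋₊ : ℤ)) I K : ℝ) = ∑ k ∈ range K,
      Pool.Agent.TH869.SQ.ind I (fun i : Fin s =>
        angle (a.eval (⌊f n⌋₊ : ℤ)) (b.eval (⌊f n⌋₊ : ℤ)) (Pool.Agent.TH869.SQ.pr (k + i))) := by
    unfold boxCount Pool.Agent.TH869.SQ.ind Pool.Agent.TH869.SQ.pr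
    rw [sum_boole]
  have e2 : boxModel a b I K = ∑ k ∈ range K, ∏ i : Fin s,
      Pool.Agent.TH869.SQ.mean (Pool.Agent.TH869.SQ.pr (k + i)) (fun t =>
        Pool.Agent.TH869.SQ.ind1 (I i)
          (angle (a.eval (t : ℤ)) (b.eval (t : ℤ)) (Pool.Agent.TH869.SQ.pr (k + i)))) := by
    unfold boxModel proportion Pool.Agent.TH869.SQ.mean Pool.Agent.TH869.SQ.ind1 Pool.Agent.TH869.SQ.pr
    refine sum_congr rfl fun k _ => prod_congr rfl fun i _ => ?_
    rw [sum_boole]
  rw [e1, e2]
  unfold Pool.Agent.TH869.SQ.lam at h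
  exact h

end Pool.Agent.Results.MP_29be01_nt.NonIntegralOrderFamilies
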