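import Pool.Agent.N384.MQ.Fped
import Pool.Agent.N384.MQ.Gen

/-!
# The Frobenius angles at `m` consecutive primes: all boxes, with square-root error against the finite-field model, for
almost all members of one-parameter families of elliptic curves with parameters in families of residues

From Mathlib: `ZMod.stdAddChar`: the additive character `j ↦ exp (2 π i j / q)` of the integers modulo `q`; `ZMod.val`: the
least residue; `Nat.nth Nat.Prime k`: the prime with the index `k`, starting with `k = 0`; `Set.OrdConnected`: intervals.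

Method: a family of residues modulo `q` with small Fourier coefficients has small exponential sums at all real
frequencies which are not close to integers; so the least residues are uniformly distributed in residue classes with a
power saving, for all moduli up to a power. The high moments and the passage to all boxes follow the starting files
(`Pool.Agent.TH869.SQ`), where the arguments are all the integers. Examples: a lemma of Ajtai, Iwaniec, Komlos, Pintz and
Szemeredi on quotients by small primes, the Stepanov type lemma of Heath-Brown and Konyagin for subgroups (library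
`H435R3.HBK`, `N825.FC`), and Weyl sums without losses (library `H373R2.NB`).
-/

set_option autoImplicit false

namespace Pool.Agent.Results.MP_29be01_nt.ResidueFamilies

open Finset Filter Polynomial

/-- The Fourier coefficients of the residues `y i`, `i ∈ s`, modulo `q` at the nonzero frequencies are at most
`η` times the number of the residues: `|∑ i ∈ s, e(h y_i / q)| ≤ η |s|` for all `h ≠ 0` modulo `q`. -/
def Flat {ι : Type} (q : ℕ) [NeZero q] (η : ℝ) (s : Finset ι) (y : ι → ZMod q) : Prop :=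
  ∀ h : ZMod q, h ≠ 0 → ‖∑ i ∈ s, (ZMod.stdAddChar (h * y i) : ℂ)‖ ≤ η * s.card

open Classical in
/-- Almost all the least residues `v = y_i`, `0 ≤ y_i < q`, `i ∈ s`, up to a proportion of at most `τ` of the `i`, have the
property `P`. -/
def Almost {ι : Type} {q : ℕ} (s : Finset ι) (y : ι → ZMod q) (τ : ℝ) (P : ℕ → Prop) : Prop :=
  ((s.filter (fun i => ¬ P (y i).val)).card : ℝ) ≤ τ * s.card

lemma fam_of {ι : Type} {q : ℕ} [NeZero q] {s : Finset ι} {y : ι → ZMod q} {Z : ℝ} (hZ : 0 < Z) (hZq : Z ≤ q)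
    (h : Flat q (1 / (Z * (42 + 3 * Real.log q))) s y) :
    Pool.Agent.N384.MQ.Fam q s y (Z * (42 + 3 * Real.log q)) Z :=
  ⟨mul_pos hZ (by have := Real.log_natCast_nonneg q; linarith), h, hZq, le_rfl⟩

/-- The number of the solutions `(x, y)` of `y² = x³ + A x + B` modulo `p`. -/
def points (p : ℕ) (A B : ℤ) : ℕ :=
  ((range p ×ˢ range p).filter
    (fun xy : ℕ × ℕ => (p : ℤ) ∣ (xy.2 : ℤ) ^ 2 - ((xy.1 : ℤ) ^ 3 + A * xy.1 + B))).card

/-- The Frobenius angle in `[0, 1]` of the curve `y² = x³ + A x + B` at the prime `p`: it is `θ` with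
`2 p ^ (1 / 2) cos (π θ) = p + 1 - #E(F_p) = p - points p A B`, and `1 / 2` if `p ∣ 2 (4 A³ + 27 B²)`. -/
noncomputable def angle (A B : ℤ) (p : ℕ) : ℝ :=
  if (p : ℤ) ∣ 2 * (4 * A ^ 3 + 27 * B ^ 2) then 1 / 2
  else Real.arccos (((p : ℝ) - points p A B) / (2 * Real.sqrt p)) / Real.pi

open Classical in
/-- The number of the `k < K` such that the angles of the curve `y² = x³ + A x + B` at the `s` consecutive primes with the
numbers `k, ..., k + s - 1` (the primes are numbered from `0`) are in `I 0, ..., I (s - 1)`. -/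
noncomputable def boxCount {s : ℕ} (A B : ℤ) (I : Fin s → Set ℝ) (K : ℕ) : ℕ :=
  ((range K).filter (fun k => ∀ i : Fin s, angle A B (Nat.nth Nat.Prime (k + i)) ∈ I i)).card

open Classical in
/-- The proportion of the residues `t` modulo `p` for which the angle of `y² = x³ + a(t) x + b(t)` at `p` is in `S`. -/
noncomputable def proportion (a b : ℤ[X]) (p : ℕ) (S : Set ℝ) : ℝ :=
  ((range p).filter (fun t : ℕ => angle (a.eval (t : ℤ)) (b.eval (t : ℤ)) p ∈ S)).card / p

/-- The expected number: the sum over `k < K` of the product of the proportions at the `s` primes. -/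
noncomputable def boxModel {s : ℕ} (a b : ℤ[X]) (I : Fin s → Set ℝ) (K : ℕ) : ℝ :=
  ∑ k ∈ range K, ∏ i : Fin s, proportion a b (Nat.nth Nat.Prime (k + i)) (I i)

theorem points_congr (p : ℕ) {A A' B B' : ℤ} (hA : (p : ℤ) ∣ A - A') (hB : (p : ℤ) ∣ B - B') :
    points p A B = points p A' B' := by
  unfold points
  congr 1
  apply filter_congr
  intro xy _
  have h : (p : ℤ) ∣ ((xy.2 : ℤ) ^ 2 - ((xy.1 : ℤ) ^ 3 + A * xy.1 + B)) -
      ((xy.2 : ℤ) ^ 2 - ((xy.1 : ℤ) ^ 3 + A' * xy.1 + B')) := by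
    have e : ((xy.2 : ℤ) ^ 2 - ((xy.1 : ℤ) ^ 3 + A * xy.1 + B)) -
      ((xy.2 : ℤ) ^ 2 - ((xy.1 : ℤ) ^ 3 + A' * xy.1 + B')) = -((A - A') * xy.1 + (B - B')) := by ring
    rw [e]
    exact (dvd_add (hA.mul_right _) hB).neg_right
  exact (dvd_iff_dvd_of_dvd_sub h)

theorem angle_congr (p : ℕ) {A A' B B' : ℤ} (hA : (p : ℤ) ∣ A - A') (hB : (p : ℤ) ∣ B - B') :
    angle A B p = angle A' B' p := by
  unfold angle
  rw [points_congr p hA hB]
  have h : (p : ℤ) ∣ 2 * (4 * A ^ 3 + 27 * B ^ 2) - 2 * (4 * A' ^ 3 + 27 * B' ^ 2) := by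
    have e : 2 * (4 * A ^ 3 + 27 * B ^ 2) - 2 * (4 * A' ^ 3 + 27 * B' ^ 2) =
      (A - A') * (8 * (A ^ 2 + A * A' + A' ^ 2)) + (B - B') * (54 * (B + B')) := by ring
    rw [e]
    exact dvd_add (hA.mul_right _) (hB.mul_right _)
  have h2 := dvd_iff_dvd_of_dvd_sub h
  by_cases h3 : (p : ℤ) ∣ 2 * (4 * A ^ 3 + 27 * B ^ 2)
  · rw [if_pos h3, if_pos (h2.mp h3)]
  · rw [if_neg h3, if_neg (fun h4 => h3 (h2.mpr h4))]


open Classical in
/-- **(1)** Let `m ≥ 1` and `δ > 0`. There are `θ > 0` and `C` such that for all finite families `y i`, `i ∈ s`, of residues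
modulo any `q` whose Fourier coefficients at the nonzero frequencies are at most `|s| / (Z (42 + 3 log q))`, where `0 < Z ≤ q`,
and for ALL polynomials `a, b ∈ ℤ[T]`, almost all the least residues `t = y_i`, up to a proportion of at most `C Z ^ (-θ)`,
have the following property: for every `K ≤ Z ^ θ` and every product of `m` intervals, the number of the `k < K` such that
the Frobenius angles of the elliptic curve `y² = x³ + a(t) x + b(t)` at the `m` consecutive primes with the numbers
`k, ..., k + m - 1` are in the intervals differs from the expected number (the sum over `k < K` of the product of the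
proportions for the residues `t` modulo these primes) by at most `C K ^ (1 / 2 + δ) (1 + log Z) ^ (1 / 2)`.

**(2)**, **(3)** Examples. All the Fourier coefficients at nonzero frequencies are at most `|s| / K` for the following families
of residues modulo primes `p` (all large primes in (2)), for ALL `K ≥ 1`:
* the quotients `j / r` of the integers `0 ≤ j < S` by the primes `r ≤ R`, if `K log ^ 4 p ≤ R < p` and `R ^ 2 ≤ S`; thus
  (1) with `Z = log ^ B p` applies to such explicit sets with only `log ^ (3 B + 20) p` members;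
* the cosets of all subgroups of the multiplicative group of an order of at least `5 p ^ (3/8) K ^ 3`;
* the residues `a b + g(a) + k(b)`, `a ∈ A`, `b ∈ B`, for arbitrary sets with `|A| |B| ≥ p K ^ 2` and arbitrary
  functions `g` and `k`;
* the values `f(n)`, `0 ≤ n < x`, of all integer polynomials of degree `d` whose leading coefficient is not divisible by
  `p`, if `p ≥ C K ^ C` and `x ^ d ≥ C K ^ C p`, where `C` depends on `d`.
In the last three examples `K`, and thus `Z`, can be a power of `p`. -/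
theorem result :
    (∀ m : ℕ, 1 ≤ m → ∀ δ : ℝ, 0 < δ → ∃ θ C : ℝ, 0 < θ ∧ 0 < C ∧
        ∀ (ι : Type) (q : ℕ) [NeZero q] (s : Finset ι) (y : ι → ZMod q) (Z : ℝ), 0 < Z → Z ≤ q →
        Flat q (1 / (Z * (42 + 3 * Real.log q))) s y → ∀ a b : ℤ[X],
        Almost s y (C * Z ^ (-θ)) (fun t => ∀ K : ℕ, (K : ℝ) ≤ Z ^ θ →
          ∀ I : Fin m → Set ℝ, (∀ i, (I i).OrdConnected) →
            |(boxCount (a.eval (t : ℤ)) (b.eval (t : ℤ)) I K : ℝ) - boxModel a b I K| ≤
              C * ((K : ℝ) ^ (1 / 2 + δ) * √(1 + Real.log Z)))) ∧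
    (∃ P₀ : ℕ, ∀ p : ℕ, P₀ ≤ p → ∀ [Fact p.Prime] (K : ℝ), 1 ≤ K →
      (∀ R S : ℕ, K * Real.log p ^ 4 ≤ R → R < p → R ^ 2 ≤ S →
        Flat p (1 / K) (((Icc 1 R).filter Nat.Prime) ×ˢ range S)
          (fun z => ((z.2 : ℕ) : ZMod p) * ((z.1 : ℕ) : ZMod p)⁻¹)) ∧
      (∀ (H : Subgroup (ZMod p)ˣ) (s : Finset (ZMod p)ˣ), (∀ u, u ∈ s ↔ u ∈ H) →
        5 * (p : ℝ) ^ (3 / 8 : ℝ) * K ^ 3 ≤ s.card → ∀ x : ZMod p, x ≠ 0 → Flat p (1 / K) s (fun u => x * (u : ZMod p))) ∧
      (∀ (A B : Finset (ZMod p)) (g k : ZMod p → ZMod p), (p : ℝ) * K ^ 2 ≤ A.card * B.card →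
        Flat p (1 / K) (A ×ˢ B) (fun z => z.1 * z.2 + g z.1 + k z.2))) ∧
    (∀ d : ℕ, 1 ≤ d → ∃ C : ℕ, ∀ p : ℕ, ∀ [Fact p.Prime] (f : Polynomial ℤ), f.natDegree = d →
      ¬ (p : ℤ) ∣ f.leadingCoeff → ∀ K : ℝ, 1 ≤ K → C * K ^ C ≤ p → ∀ x : ℕ, C * K ^ C * p ≤ (x : ℝ) ^ d →
      Flat p (1 / K) (range x) (fun n => ((f.eval (n : ℤ) : ℤ) : ZMod p))) := by
  refine ⟨?_, ?_, fun d hd => ?_⟩
  · intro m hm δ hδ
    obtain ⟨κ, C, h1, _, h3, H⟩ := Pool.Agent.N384.MQ.mq_consec m hm δ hδ
    refine ⟨κ, C, h1, by linarith, fun ι q _ s y Z hZ hZq hfl a b => ?_⟩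
    have hE := H (fun p n => angle (a.eval (n : ℤ)) (b.eval (n : ℤ)) p) (by
      intro p n
      have e : ((n + p : ℕ) : ℤ) - (n : ℤ) = p := by push_cast; ring
      have hd : ∀ f : ℤ[X], (p : ℤ) ∣ f.eval ((n + p : ℕ) : ℤ) - f.eval (n : ℤ) := by
        intro f
        have := f.sub_dvd_eval_sub ((n + p : ℕ) : ℤ) (n : ℤ)
        rwa [e] at this
      exact angle_congr p (hd a) (hd b)) ι q s y _ Z (fam_of hZ hZq hfl) hZ
    unfold Almost
    refine le_trans (Nat.cast_le.2 (card_le_card fun n hn => ?_)) hE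
    rw [mem_filter] at hn ⊢
    refine ⟨hn.1, fun hcon => hn.2 ?_⟩
    intro K hK I hI
    have h := hcon K hK I hI
    rw [sum_sub_distrib] at h
    have e1 : (boxCount (a.eval ((y n).val : ℤ)) (b.eval ((y n).val : ℤ)) I K : ℝ) = ∑ k ∈ range K,
        Pool.Agent.TH869.SQ.ind I (fun i : Fin m =>
          angle (a.eval ((y n).val : ℤ)) (b.eval ((y n).val : ℤ)) (Pool.Agent.TH869.SQ.pr (k + i))) := by
      unfold boxCount Pool.Agent.TH869.SQ.ind Pool.Agent.TH869.SQ.pr
      rw [sum_boole]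
    have e2 : boxModel a b I K = ∑ k ∈ range K, ∏ i : Fin m,
        Pool.Agent.TH869.SQ.mean (Pool.Agent.TH869.SQ.pr (k + i)) (fun t =>
          Pool.Agent.TH869.SQ.ind1 (I i)
            (angle (a.eval (t : ℤ)) (b.eval (t : ℤ)) (Pool.Agent.TH869.SQ.pr (k + i)))) := by
      unfold boxModel proportion Pool.Agent.TH869.SQ.mean Pool.Agent.TH869.SQ.ind1 Pool.Agent.TH869.SQ.pr
      refine sum_congr rfl fun k _ => prod_congr rfl fun i _ => ?_
      rw [sum_boole]
    rw [e1, e2]
    exact h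
  · obtain ⟨P₀, h0⟩ := Pool.Agent.N384.MQ.flatK_quot
    exact ⟨P₀, fun p hp _ K hK => ⟨fun R S => h0 p hp K hK R S,
      fun H s hs hc x hx => Pool.Agent.N384.MQ.flatK_coset p H s hs K hK hc x hx,
      fun A B g k hAB => Pool.Agent.N384.MQ.flatK_prod p A B g k K hK hAB⟩⟩
  · exact Pool.Agent.N384.MQ.flatK_poly d hd

end Pool.Agent.Results.MP_29be01_nt.ResidueFamilies
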