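import Pool.Agent.N368.TS.Wel

/-!
# The joint Frobenius angles of several elliptic curves at `s` consecutive primes: all boxes, with square-root error against
the finite-field model, for almost all members of families with `r` parameters along thin sequences of parameter vectors

From Mathlib: `⌊y⌋`: the integer part of `y`; `Nat.nth Nat.Prime k`: the prime with the index `k`, starting with `k = 0`;
`Set.OrdConnected`: intervals; `MvPolynomial.eval t f`: the value of the polynomial `f` at `t`.

Method: the vectors `(⌊P₁(n)⌋, ..., ⌊P_r(n)⌋)`, `N < n ≤ 2N`, are uniformly distributed in the residue classes modulo all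
integers up to a power of `N`, with a power saving (`Pool.Agent.N666.VE`, `Pool.Agent.N666.TM`, exponential sums and a
truncated Fourier series for the integer parts). The high moments (of order `log N / log K`) of sums of functions of the
residues modulo coprime integers, and the passage to all boxes, follow `Pool.Agent.N193.PS.Pe2` and `Pool.Agent.TH869.SQ`
(where there is one parameter), for functions of integer vectors.
-/

set_option autoImplicit false

namespace Pool.Agent.Results.MP_29be01_nt.ThinParameterFamilies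

open Finset

/-- The function `∑ t ∈ F, a t * x ^ t` has the leading exponent `c`, which is positive and not an integer, with a
positive coefficient. -/
def Admissible (F : Finset ℝ) (a : ℝ → ℝ) (c : ℝ) : Prop :=
  c ∈ F ∧ (∀ t ∈ F, t ≤ c) ∧ 0 < c ∧ (∀ m : ℕ, c ≠ m) ∧ 0 < a c

/-- The vector of the integer parts of the values at `n`. -/
noncomputable def values {r : ℕ} (F : Fin r → Finset ℝ) (a : Fin r → ℝ → ℝ) (n : ℕ) : Fin r → ℤ :=
  fun l => ⌊∑ t ∈ F l, a l t * (n : ℝ) ^ t⌋

/-- The number of the solutions `(x, y)` of `y² = x³ + A x + B` modulo `p`. -/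
def points (p : ℕ) (A B : ℤ) : ℕ :=
  ((range p ×ˢ range p).filter
    (fun xy : ℕ × ℕ => (p : ℤ) ∣ (xy.2 : ℤ) ^ 2 - ((xy.1 : ℤ) ^ 3 + A * xy.1 + B))).card

/-- The Frobenius angle in `[0, 1]` of the curve `y² = x³ + A x + B` at the prime `p`: it is `θ` with
`2 p ^ (1 / 2) cos (π θ) = p + 1 - #E(F_p) = p - points p A B`, and `1 / 2` if `p ∣ 2 (4 A³ + 27 B²)`. -/
noncomputable def angle (A B : ℤ) (p : ℕ) : ℝ :=
  if (p : ℤ) ∣ 2 * (4 * A ^ 3 + 27 * B ^ 2) then 1 / 2
  else Real.arccos (((p : ℝ) - points p A B) / (2 * Real.sqrt p)) / Real.pi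

open Classical in
/-- The number of the `k < K` such that for all `j` the angles of the curve `y² = x³ + A j x + B j` at the `s` consecutive
primes with the numbers `k, ..., k + s - 1` (the primes are numbered from `0`) are in `I 0 j, ..., I (s - 1) j`. -/
noncomputable def boxCount {s m : ℕ} (A B : Fin m → ℤ) (I : Fin s → Fin m → Set ℝ) (K : ℕ) : ℕ :=
  ((range K).filter (fun k => ∀ (i : Fin s) (j : Fin m), angle (A j) (B j) (Nat.nth Nat.Prime (k + i)) ∈ I i j)).card

open Classical in
/-- The proportion of the vectors of residues `t` modulo `p` for which the angle of the curve `y² = x³ + A j(t) x + B j(t)`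
at `p` is in `S j` for all `j`. -/
noncomputable def proportion {r m : ℕ} (A B : Fin m → MvPolynomial (Fin r) ℤ) (p : ℕ) (S : Fin m → Set ℝ) : ℝ :=
  ((Fintype.piFinset (fun _ : Fin r => range p)).filter (fun t => ∀ j,
    angle (MvPolynomial.eval (fun l => (t l : ℤ)) (A j)) (MvPolynomial.eval (fun l => (t l : ℤ)) (B j)) p ∈ S j)).card /
    (p : ℝ) ^ r

/-- The expected number: the sum over `k < K` of the product of the proportions at the `s` primes. -/
noncomputable def boxModel {r s m : ℕ} (A B : Fin m → MvPolynomial (Fin r) ℤ) (I : Fin s → Fin m → Set ℝ) (K : ℕ) : ℝ :=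
  ∑ k ∈ range K, ∏ i : Fin s, proportion A B (Nat.nth Nat.Prime (k + i)) (I i)

theorem points_congr (p : ℕ) {A A' B B' : ℤ} (hA : (p : ℤ) ∣ A - A') (hB : (p : ℤ) ∣ B - B') :
    points p A B = points p A' B' := by
  unfold points
  congr 1
  apply filter_congr
  intro xy _
  have h : (p : ℤ) ∣ ((xy.2 : ℤ) ^ 2 - ((xy.1 : ℤ) ^ 3 + A * xy.1 + B)) -
      ((xy.2 : ℤ) ^ 2 - ((xy.1 : ℤ) ^ 3 + A' * xy.1 + B')) := by
    have e : ((xy.2 : ℤ) ^ 2 - ((xy.1 : ℤ) ^ 3 + A * xy.1 + B)) -
      ((xy.2 : ℤ) ^ 2 - ((xy.1 : ℤ) ^ 3 + A' * xy.1 + B')) = -((A - A') * xy.1 + (B - B')) := by ring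
    rw [e]
    exact (dvd_add (hA.mul_right _) hB).neg_right
  exact (dvd_iff_dvd_of_dvd_sub h)

theorem angle_congr (p : ℕ) {A A' B B' : ℤ} (hA : (p : ℤ) ∣ A - A') (hB : (p : ℤ) ∣ B - B') :
    angle A B p = angle A' B' p := by
  unfold angle
  rw [points_congr p hA hB]
  have h : (p : ℤ) ∣ 2 * (4 * A ^ 3 + 27 * B ^ 2) - 2 * (4 * A' ^ 3 + 27 * B' ^ 2) := by
    have e : 2 * (4 * A ^ 3 + 27 * B ^ 2) - 2 * (4 * A' ^ 3 + 27 * B' ^ 2) =
      (A - A') * (8 * (A ^ 2 + A * A' + A' ^ 2)) + (B - B') * (54 * (B + B')) := by ring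
    rw [e]
    exact dvd_add (hA.mul_right _) (hB.mul_right _)
  have h2 := dvd_iff_dvd_of_dvd_sub h
  by_cases h3 : (p : ℤ) ∣ 2 * (4 * A ^ 3 + 27 * B ^ 2)
  · rw [if_pos h3, if_pos (h2.mp h3)]
  · rw [if_neg h3, if_neg (fun h4 => h3 (h2.mpr h4))]

theorem eval_congr {r : ℕ} (f : MvPolynomial (Fin r) ℤ) (p : ℕ) {c d : Fin r → ℤ} (h : ∀ l, (p : ℤ) ∣ c l - d l) :
    (p : ℤ) ∣ MvPolynomial.eval c f - MvPolynomial.eval d f := by
  induction f using MvPolynomial.induction_on with
  | C z => simp
  | add f g hf hg =>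
    rw [map_add, map_add]
    have e : MvPolynomial.eval c f + MvPolynomial.eval c g - (MvPolynomial.eval d f + MvPolynomial.eval d g) =
        (MvPolynomial.eval c f - MvPolynomial.eval d f) + (MvPolynomial.eval c g - MvPolynomial.eval d g) := by ring
    rw [e]
    exact dvd_add hf hg
  | mul_X f i hf =>
    rw [map_mul, map_mul, MvPolynomial.eval_X, MvPolynomial.eval_X]
    have e : MvPolynomial.eval c f * c i - MvPolynomial.eval d f * d i =
        (MvPolynomial.eval c f - MvPolynomial.eval d f) * c i + MvPolynomial.eval d f * (c i - d i) := by ring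
    rw [e]
    exact dvd_add (hf.mul_right _) ((h i).mul_left _)

open Classical in
/-- Let `P₁, ..., P_r`, `r ≥ 1`, be generalised polynomials (finite sums of real powers with real coefficients) whose leading
exponents are positive, not integers and distinct, with positive leading coefficients; let `s ≥ 1`, `m` and `δ > 0` be given.
There are `κ > 0` and `C` such that for all polynomials `A₁, B₁, ..., A_m, B_m ∈ ℤ[T₁, ..., T_r]` and all `N ≥ 1`, all the
integers `N < n ≤ 2 N` with at most `C N ^ (1 - κ)` exceptions have the following property, with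
`t = (⌊P₁(n)⌋, ..., ⌊P_r(n)⌋)`: for every `K ≤ N ^ κ` and every product of `s m` intervals, the number of the `k < K` such that
the Frobenius angles of the `m` curves `y² = x³ + A_j(t) x + B_j(t)` at the `s` consecutive primes with the numbers
`k, ..., k + s - 1` are in the intervals differs from the expected number (the sum over `k < K` of the product of the
proportions for the vectors of residues modulo these primes) by at most `C K ^ (1 / 2 + δ) (1 + log N) ^ (1 / 2)`. -/
theorem result (r m s : ℕ) (hr : 1 ≤ r) (hs : 1 ≤ s) (F : Fin r → Finset ℝ) (a : Fin r → ℝ → ℝ) (c : Fin r → ℝ)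
    (h : ∀ l, Admissible (F l) (a l) (c l)) (hc : Function.Injective c) (δ : ℝ) (hδ : 0 < δ) :
    ∃ κ C : ℝ, 0 < κ ∧ 0 < C ∧ ∀ (A B : Fin m → MvPolynomial (Fin r) ℤ) (N : ℕ), 1 ≤ N →
      (((Ioc N (2 * N)).filter (fun n : ℕ => ¬ ∀ K : ℕ, (K : ℝ) ≤ (N : ℝ) ^ κ →
        ∀ I : Fin s → Fin m → Set ℝ, (∀ i j, (I i j).OrdConnected) →
          |(boxCount (fun j => MvPolynomial.eval (values F a n) (A j)) (fun j => MvPolynomial.eval (values F a n) (B j))
            I K : ℝ) - boxModel A B I K| ≤
              C * ((K : ℝ) ^ (1 / 2 + δ) * √(1 + Real.log N)))).card : ℝ) ≤ C * (N : ℝ) ^ (1 - κ) := by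
  have : Nonempty (Fin r) := ⟨⟨0, hr⟩⟩
  obtain ⟨⟨ρ, σ, C₀, hv⟩, -⟩ := Pool.Agent.N368.TS.fl_pev h hc
  obtain ⟨κ, C, h1, h2, h3, H⟩ := Pool.Agent.N368.TS.consecutive2 hv (Fin m) s hs δ hδ
  refine ⟨κ, C, h1, by linarith, fun A B N hN => ?_⟩
  obtain ⟨E, hE1, hE2⟩ := H (fun p t j => angle (MvPolynomial.eval t (A j)) (MvPolynomial.eval t (B j)) p) (by
    intro p c d hcd
    funext j
    exact angle_congr p (eval_congr _ p hcd) (eval_congr _ p hcd)) N hN
  refine le_trans (Nat.cast_le.2 (card_le_card fun n hn => ?_)) hE1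
  rw [mem_filter] at hn
  by_contra hnE
  apply hn.2
  intro K hK I hI
  have h4 := hE2 n hn.1 hnE K hK I hI
  rw [sum_sub_distrib] at h4
  have e1 : (boxCount (fun j => MvPolynomial.eval (values F a n) (A j))
      (fun j => MvPolynomial.eval (values F a n) (B j)) I K : ℝ) = ∑ k ∈ range K,
      Pool.Agent.N368.TS.indv (fun z : Fin s × Fin m => I z.1 z.2) (fun z => angle (MvPolynomial.eval (values F a n) (A z.2))
        (MvPolynomial.eval (values F a n) (B z.2)) (Pool.Agent.TH869.SQ.pr (k + z.1))) := by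
    unfold boxCount Pool.Agent.TH869.SQ.pr
    rw [card_filter, Nat.cast_sum]
    refine sum_congr rfl fun k _ => ?_
    rw [Nat.cast_ite, Nat.cast_one, Nat.cast_zero]
    exact Pool.Agent.N368.TS.indv_eq _ _ _ ⟨fun h z => h z.1 z.2, fun h i j => h (i, j)⟩
  have e2 : boxModel A B I K = ∑ k ∈ range K, ∏ i : Fin s,
      Pool.Agent.N368.TS.av (Pool.Agent.TH869.SQ.pr (k + i)) (fun t : Fin r → ℤ =>
        Pool.Agent.N368.TS.indv (I i) (fun j => angle (MvPolynomial.eval t (A j)) (MvPolynomial.eval t (B j))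
          (Pool.Agent.TH869.SQ.pr (k + i)))) := by
    unfold boxModel proportion Pool.Agent.N368.TS.av Pool.Agent.N368.TS.bx Pool.Agent.TH869.SQ.pr
    refine sum_congr rfl fun k _ => prod_congr rfl fun i _ => ?_
    rw [card_filter, Nat.cast_sum, Fintype.card_fin]
    congr 1
    refine sum_congr rfl fun t _ => ?_
    rw [Nat.cast_ite, Nat.cast_one, Nat.cast_zero]
    exact Pool.Agent.N368.TS.indv_eq _ _ _ Iff.rfl
  rw [e1, e2]
  unfold Pool.Agent.TH869.SQ.lam at h4
  exact h4

end Pool.Agent.Results.MP_29be01_nt.ThinParameterFamilies
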